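import Pool.Agent.H19.TM.Unc

set_option autoImplicit false

/-!
# The truncated Moebius function in short intervals: the exact range of the centred Gaussian law and of the variance

`mu y n` is the Moebius function truncated at `y` (library, `Pool.Agent.Y862.GM`): the product over the primes
`p ≤ y` of `0` if `p ^ 2` divides `n`, of `-1` if `p` divides `n` but `p ^ 2` does not, and of `1` otherwise, that is
the Moebius function of the `y`-smooth part of `n`.  Its mean value is `mean y = ∏ p ≤ y, (1 - 1 / p) ^ 2`.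

Let `y_n, b_n → ∞`, and let `(Z_n, Z_n + Y_n]` be intervals with `Y_n ≥ y_n ^ (A (log b_n + log log y_n))` eventually,
for every `A`.  For the sums of `mu y_n` over the windows of length `b_n` in these intervals, centred at the mean value
and divided by `√(b_n / ζ(2))`, the following are equivalent: the Gaussian law at every point; the joint Gaussian law
for `k` adjacent windows for every `k`, uniformly in the point; the second moment tends to `1`; and
`log b_n / log y_n → 0`.

Main new tools: an exact recursion over the primes for the variance over a full period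
(`Pool.Agent.H19.TM.t_REC`); the bounds for the variance which follow from it (`S_VAR`, `S_SMALL`, `S_LIM`,
`S_DEF` in `Pool.Agent.H19.TM.Stm2`: at most `C b` for every finite set of primes, at most `(1 - η(c)) b / ζ(2)` for
`b ≥ y ^ c`); and the comparison of the sums of `mu y - d mu r`, `r = b ^ C`, with sums of centred random signs.
-/

namespace Pool.Agent.Results.MP_4f18df_nt.CentredExactRange

open Finset Filter Topology Pool.Agent.Y862.GM Pool.Agent.H19.TM

/-- the mean value of the truncated Moebius function, `∏ p ≤ y, (1 - 1 / p) ^ 2` -/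
noncomputable def mean (y : ℕ) : ℝ := ∏ p ∈ pr y, (1 - 1 / (p : ℝ)) ^ 2

/-- the sum of `mu y` over the window `(x, x + b]`, minus `c`, divided by the square root of `b / ζ(2)` -/
noncomputable def T (y b : ℕ) (c : ℝ) (x : ℕ) : ℝ :=
  (∑ n ∈ Ioc x (x + b), mu y n - c) / √(6 * b / Real.pi ^ 2)

open Classical in
/-- the proportion of the `x` in `(Z, Z + Y]` with `T y b c (x + i b) ≤ t i` for all `i < k` -/
noncomputable def proportion {k : ℕ} (y b Z Y : ℕ) (c : ℝ) (t : Fin k → ℝ) : ℝ :=
  (((Ioc Z (Z + Y)).filter (fun x => ∀ i : Fin k, T y b c (x + i * b) ≤ t i)).card : ℝ) / Y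

/-- the mean value of `T y b c x ^ 2` over the `x` in `(Z, Z + Y]` -/
noncomputable def secondMoment (y b Z Y : ℕ) (c : ℝ) : ℝ := (∑ x ∈ Ioc Z (Z + Y), T y b c x ^ 2) / Y

/-- the standard normal distribution function -/
noncomputable def Phi (t : ℝ) : ℝ := (ProbabilityTheory.gaussianReal 0 1).real (Set.Iic t)

/-- the Gaussian law for one window, at every point `t` -/
def GaussianLaw (y b Z Y : ℕ → ℕ) (c : ℕ → ℝ) : Prop :=
  ∀ t : ℝ, Tendsto (fun n => proportion (y n) (b n) (Z n) (Y n) (c n) (fun _ : Fin 1 => t)) atTop (𝓝 (Phi t))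

/-- the joint Gaussian law for `k` adjacent windows, for every `k`, uniformly in the point `t ∈ ℝ ^ k` -/
def JointGaussianLaw (y b Z Y : ℕ → ℕ) (c : ℕ → ℝ) : Prop :=
  ∀ (k : ℕ) (ε : ℝ), 0 < ε → ∀ᶠ n in atTop, ∀ t : Fin k → ℝ,
    |proportion (y n) (b n) (Z n) (Y n) (c n) t - ∏ i, Phi (t i)| ≤ ε

/-- the second moment is asymptotic to `b / ζ(2)` -/
def VarianceLaw (y b Z Y : ℕ → ℕ) (c : ℕ → ℝ) : Prop :=
  Tendsto (fun n => secondMoment (y n) (b n) (Z n) (Y n) (c n)) atTop (𝓝 1)

lemma proportion_eq {k : ℕ} (y b Z Y : ℕ) (hb : 1 ≤ b) (c : ℝ) (t : Fin k → ℝ) :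
    proportion y b Z Y c t = law y b Z Y c (fun i => t i * sd b) := by
  classical
  obtain ⟨h0, _⟩ := sd_facts hb
  unfold proportion law
  congr 2
  congr 1
  apply filter_congr
  intro x _
  apply forall_congr'
  intro i
  have e : T y b c (x + i * b) = (∑ n ∈ Ioc (x + i * b) (x + i * b + b), mu y n - c) / sd b := rfl
  rw [e, div_le_iff₀ h0]

lemma secondMoment_eq (y b Z Y : ℕ) (hb : 1 ≤ b) (c : ℝ) :
    secondMoment y b Z Y c = msq y b Z Y c / (6 * b / Real.pi ^ 2) := by
  obtain ⟨h0, h2⟩ := sd_facts hb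
  have e0 : secondMoment y b Z Y c = (∑ x ∈ Ioc Z (Z + Y), T y b c x ^ 2) / (Y : ℝ) := rfl
  have e1 : msq y b Z Y c = (∑ x ∈ Ioc Z (Z + Y), (∑ n ∈ Ioc x (x + b), mu y n - c) ^ 2) / (Y : ℝ) := rfl
  have e2 : ∀ x ∈ Ioc Z (Z + Y), T y b c x ^ 2 =
      (∑ n ∈ Ioc x (x + b), mu y n - c) ^ 2 / (6 * b / Real.pi ^ 2) := by
    intro x _
    have e : T y b c x = (∑ n ∈ Ioc x (x + b), mu y n - c) / sd b := rfl
    rw [e, div_pow, h2]
  rw [e0, e1, sum_congr rfl e2, ← sum_div, div_right_comm]

lemma gaussianLaw_iff {y b Z Y : ℕ → ℕ} (hb : Tendsto b atTop atTop) (c : ℕ → ℝ) :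
    GaussianLaw y b Z Y c ↔ ∀ t : ℝ, Tendsto (fun n => law (y n) (b n) (Z n) (Y n) (c n)
      (fun _ : Fin 1 => t * sd (b n))) atTop (𝓝 (Ph t)) := by
  apply forall_congr'
  intro t
  apply tendsto_congr'
  filter_upwards [ev_ge hb 1] with n hn
  exact proportion_eq _ _ _ _ hn _ _

lemma jointGaussianLaw_iff {y b Z Y : ℕ → ℕ} (hb : Tendsto b atTop atTop) (c : ℕ → ℝ) :
    JointGaussianLaw y b Z Y c ↔ ∀ (k : ℕ) (ε : ℝ), 0 < ε → ∀ᶠ n in atTop, ∀ t : Fin k → ℝ,
      |law (y n) (b n) (Z n) (Y n) (c n) (fun i => t i * sd (b n)) - ∏ i, Ph (t i)| ≤ ε := by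
  apply forall_congr'
  intro k
  apply forall_congr'
  intro ε
  apply imp_congr_right
  intro _
  apply eventually_congr
  filter_upwards [ev_ge hb 1] with n hn
  apply forall_congr'
  intro t
  rw [proportion_eq _ _ _ _ hn]
  rfl

lemma varianceLaw_iff {y b Z Y : ℕ → ℕ} (hb : Tendsto b atTop atTop) (c : ℕ → ℝ) :
    VarianceLaw y b Z Y c ↔ Tendsto (fun n => msq (y n) (b n) (Z n) (Y n) (c n) / (6 * b n / Real.pi ^ 2))
      atTop (𝓝 1) := by
  apply tendsto_congr'
  filter_upwards [ev_ge hb 1] with n hn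
  exact secondMoment_eq _ _ _ _ hn _

theorem result (y b Z Y : ℕ → ℕ) (hy : Tendsto y atTop atTop) (hb : Tendsto b atTop atTop)
    (hY : ∀ A : ℕ, ∀ᶠ n in atTop,
      (y n : ℝ) ^ (A * (Real.log (b n) + Real.log (Real.log (y n)))) ≤ Y n) :
    List.TFAE [GaussianLaw y b Z Y (fun n => b n * mean (y n)),
      JointGaussianLaw y b Z Y (fun n => b n * mean (y n)),
      VarianceLaw y b Z Y (fun n => b n * mean (y n)),
      Tendsto (fun n => Real.log (b n) / Real.log (y n)) atTop (𝓝 0)] := by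
  rw [gaussianLaw_iff hb, jointGaussianLaw_iff hb, varianceLaw_iff hb]
  exact centred hy hb hY

end Pool.Agent.Results.MP_4f18df_nt.CentredExactRange
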