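import Pool.Agent.H19.TM.Strict
import Pool.Agent.H19.TM.Ec
import Pool.Agent.H19.TM.Seq
import Pool.Agent.H59.TM.G1
import Pool.Agent.H93.TM.Gtwo
import Pool.Agent.H40.TM.Gthree
import Pool.Agent.H40.TM.Fone
import Pool.Agent.H61.TM.FE2
import Pool.Agent.H23.TM.GE
import Pool.Agent.H59.TM.J1
import Pool.Agent.H17.TM.J2
import Pool.Agent.H97.TM.J3
import Pool.Agent.H97.TM.Ex
import Pool.Agent.H52.TM.T4
import Pool.Agent.H83.TM.J4
import Pool.Agent.H94.TM.Jlim
import Pool.Agent.H83.TM.J5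

set_option autoImplicit false

/-!
# The truncated Moebius function in windows of all lengths: the exact variance

`mu y n` is the Moebius function truncated at `y` (library, `Pool.Agent.Y862.GM`): the product over the primes
`p ≤ y` of `0` if `p ^ 2` divides `n`, of `-1` if `p` divides `n` but `p ^ 2` does not, and of `1` otherwise, that is
the Moebius function of the `y`-smooth part of `n`.  Its mean value is `mean y = ∏ p ≤ y, (1 - 1 / p) ^ 2`.

For ALL `y` and `b` tending to infinity, and all the intervals of length at least `y ^ (A (log b + log log y))`, the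
variance of the sum over a window of length `b`, divided by `b / ζ(2)`, is
`1 - (∏ p ≤ y, (1 - 1 / p) ^ 4) * ∑ n ≤ b, n y-smooth, quadruples n / n + o(1) = 1 - j (log b / log y) + o(1)`,
where `j` is the function of Ankeny and Onishi of dimension 4: `j u = exp (-4 γ) u ^ 4 / 24` for `0 ≤ u ≤ 1` and
`u j'(u) = 4 (j u - j (u - 1))`.  It increases from `0` to `1`, and `0 < j u < 1` for all `u > 0`.

Proof: the exact recursion for the variance over the primes (`Pool.Agent.H19.TM.t_REC`) and the recursion for the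
right-hand side differ by small terms; their difference is a contraction (`Pool.Agent.H19.TM.t_EC`).
-/

namespace Pool.Agent.Results.MP_4f18df_nt.ExactVariance

open Finset Filter Topology Pool.Agent.Y862.GM Pool.Agent.H19.TM

/-- the mean value of the truncated Moebius function, `∏ p ≤ y, (1 - 1 / p) ^ 2` -/
noncomputable def mean (y : ℕ) : ℝ := ∏ p ∈ pr y, (1 - 1 / (p : ℝ)) ^ 2

/-- the mean value over the `x` in `(Z, Z + Y]` of the square of the sum of `mu y n - mean y` over the window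
`x < n ≤ x + b`, divided by `b / ζ(2)` -/
noncomputable def variance (y b Z Y : ℕ) : ℝ :=
  (∑ x ∈ Ioc Z (Z + Y), (∑ n ∈ Ioc x (x + b), mu y n - b * mean y) ^ 2) / Y / (6 * b / Real.pi ^ 2)

/-- the number of quadruples of positive integers with product `n`, the sum over the divisors `d` of `n` of the number
of divisors of `d` times the number of divisors of `n / d` -/
def quadruples (n : ℕ) : ℕ := ∑ d ∈ n.divisors, d.divisors.card * (n / d).divisors.card

/-- `(∏ p ≤ y, (1 - 1 / p) ^ 4) * ∑ n ≤ b, n y-smooth, quadruples n / n` -/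
noncomputable def deficiency (y b : ℕ) : ℝ :=
  (∏ p ∈ pr y, (1 - 1 / (p : ℝ)) ^ 4) *
    ∑ n ∈ (Icc 1 b).filter (fun n => ∀ p ∈ n.primeFactors, p ≤ y), (quadruples n : ℝ) / n

/-- the conditions which determine the function of Ankeny and Onishi of dimension 4 -/
structure IsAnkenyOnishi (j : ℝ → ℝ) : Prop where
  continuous : Continuous j
  nonpos : ∀ u : ℝ, u ≤ 0 → j u = 0
  start : ∀ u : ℝ, 0 ≤ u → u ≤ 1 → j u = Real.exp (-(4 * Real.eulerMascheroniConstant)) / 24 * u ^ 4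
  equation : ∀ u : ℝ, 0 < u → HasDerivAt j (4 * (j u - j (u - 1)) / u) u

lemma jProp_iff (j : ℝ → ℝ) : IsAnkenyOnishi j ↔ JProp j :=
  ⟨fun h => ⟨h.continuous, h.nonpos, h.start, h.equation⟩, fun h => ⟨h.1, h.2.1, h.2.2.1, h.2.2.2⟩⟩

lemma mean_eq (y : ℕ) : mean y = V (pr y) := rfl

lemma variance_eq (y b Z Y : ℕ) : variance y b Z Y = msq y b Z Y (b * V (pr y)) / (6 * b / Real.pi ^ 2) := rfl

lemma deficiency_eq (y b : ℕ) : deficiency y b = Gd (pr y) b := by
  unfold deficiency Gd V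
  congr 1
  · rw [← prod_pow]
    refine prod_congr rfl fun p _ => ?_
    ring
  · apply sum_congr _ (fun n _ => rfl)
    apply filter_congr
    intro n _
    constructor
    · intro h p hp
      have h1 := h p hp
      have h2 := Nat.prime_of_mem_primeFactors hp
      simp only [pr, mem_filter, mem_range]
      exact ⟨by omega, h2⟩
    · intro h p hp
      have h1 := h hp
      simp only [pr, mem_filter, mem_range] at h1
      omega

/-- all the statements of the project -/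
lemma parts : S_EC ∧ S_G2 ∧ S_J1 ∧ S_J6 := by
  have hPV : S_PV := Pool.Agent.H95.TM.t_PV Pool.Agent.H61.TM.t_VV
  have hG1 : S_G1 := Pool.Agent.H59.TM.t_G1
  have hG2 : S_G2 := Pool.Agent.H93.TM.t_G2 hG1
  have hG3 : S_G3 := Pool.Agent.H40.TM.t_G3 hG1
  have hG4 : S_G4 := Pool.Agent.H23.TM.t_G4
  have hG5 : S_G5 := Pool.Agent.H23.TM.t_G5 hG2
  have hVAR : S_VAR := t_VAR t_REC t_CNT
  have hSMALL : S_SMALL := Pool.Agent.H54.TM.t_SMALL t_REC t_CNT hVAR Pool.Agent.H61.TM.t_VV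
  have hF2 : S_F2 := Pool.Agent.H61.TM.t_F2 t_REC t_CNT t_SIG
  have hE1 : S_E1 := Pool.Agent.H40.TM.t_E1 t_REC t_CNT hVAR t_SIG hG3
  have hE2 : S_E2 := Pool.Agent.H61.TM.t_E2 hF2 hG1 hG2 t_SIG
  have hE3 : S_E3 := Pool.Agent.H23.TM.t_E3 hVAR t_SIG hG2 hSMALL hG5
  have hJ2 : S_J2 := Pool.Agent.H17.TM.t_J2
  have hJ3 : S_J3 := Pool.Agent.H97.TM.t_J3
  have hEX : S_EX := Pool.Agent.H97.TM.t_EX Pool.Agent.H52.TM.t_T4
  have hJ4 : S_J4 := Pool.Agent.H83.TM.t_J4 hG3 hG2 hJ2 hJ3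
  have hJ5 : S_J5 := Pool.Agent.H83.TM.t_J5 hJ4 hEX hJ2 hJ3 hPV
  exact ⟨t_EC hE1 hE2 hE3 hG2 hG4 hPV Pool.Agent.H61.TM.t_VV, hG2, Pool.Agent.H59.TM.t_J1,
    Pool.Agent.H94.TM.t_J6 hJ2 hJ3 hJ5 hG5 hG2⟩

theorem result : ∃ j : ℝ → ℝ, IsAnkenyOnishi j ∧ (∀ i : ℝ → ℝ, IsAnkenyOnishi i → i = j) ∧
    (∀ u : ℝ, 0 < u → 0 < j u ∧ j u < 1) ∧ Monotone j ∧ Tendsto j atTop (𝓝 1) ∧
    ∀ ε : ℝ, 0 < ε → ∃ A : ℕ, ∀ y b Z Y : ℕ, A ≤ y → A ≤ b →
      (y : ℝ) ^ (A * (Real.log b + Real.log (Real.log y))) ≤ Y →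
      |variance y b Z Y - (1 - deficiency y b)| ≤ ε ∧
      |variance y b Z Y - (1 - j (Real.log b / Real.log y))| ≤ ε := by
  obtain ⟨hEC, hG2, ⟨j, hj⟩, hJ6⟩ := parts
  obtain ⟨h01, hm, ht, -⟩ := hJ6 j hj
  refine ⟨j, (jProp_iff j).2 hj, fun i hi => j_unique hJ6 i j ((jProp_iff i).1 hi) hj,
    fun u hu => j_strict j hj h01 hm u hu, hm, ht, ?_⟩
  intro ε hε
  obtain ⟨A, hA⟩ := exact_var_j hEC hG2 hJ6 j hj ε hε
  refine ⟨A, fun y b Z Y hy hb hY => ?_⟩
  rw [variance_eq, deficiency_eq]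
  exact hA y b Z Y hy hb hY

end Pool.Agent.Results.MP_4f18df_nt.ExactVariance
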