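import Pool.Agent.H90.MR.MetF
import Pool.Agent.H90.MR.Asym
import Pool.Agent.H90.MR.Real
import Pool.Agent.H85.MR.Cov
import Pool.Agent.H85.MR.CovG
import Pool.Agent.H85.MR.Mob
import Pool.Agent.H85.MR.Vol
import Pool.Agent.H40.MR.Sup
import Pool.Agent.H40.MR.GcdTau
import Pool.Agent.H40.MR.Levy
import Pool.Agent.H59.MR.MomG
import Pool.Agent.H59.MR.Win

/-!
# Moebius sums in short windows, rotated centres, all lengths at once

`M(x; H)` is the sum of the Moebius function over the integers `n` with `|n - x| < H / 2` (`mobReal H x`), and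
`M(n; h)`, for natural numbers, the sum over the window `[n - h, n + h]` (`mobSum n h`).

1. For almost every real `α`, simultaneously for ALL lengths `h ≤ N`, ALL thresholds `t` and ALL `v` in `[0, 1]`: the
number of the centres `n` in `(N, 2N]` with `α n mod 1 < v` and `M(n; h) ≤ t` lies between
`v #{n : M(n; h) ≤ t - 16 N ^ (1 / q)} - N ^ (1 - 1 / (4 q))` and `v #{n : M(n; h) ≤ t + 16 N ^ (1 / q)} + N ^ (1 - 1 / (4 q))`,
for all `q ≥ 1` and all `N ≥ N₀(α, q)`.

2. Real centres, Lebesgue measure. For almost every real `α`, all `v` in `(0, 1]`, `ε, δ, η > 0`, for all large real `X`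
and ALL real `H` in `[X ^ ε, X]` at once: the distribution function of `M(x; H) / √(H / ζ(2))` over the `x` in `[X, 2X]`
with `α ⌊x⌋ mod 1 < v` is within `(δ, η)` of the one over all `x` in `[X, 2X]`. So the asymptotic normality of the
one and of the other are equivalent for every function `H`, and Q1, literally the frozen statement, is equivalent to its
form for the centres `x` with `α ⌊x⌋ mod 1 < v`.

3. The same for almost every `θ` in `(0, 1)` and the `x` with `⌊x⌋` in the Beatty sequence `⌊m / θ⌋`.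
-/

set_option autoImplicit false

namespace Pool.Agent.Results.MP_4f18df_nt.RotatedCentres

open Finset Filter MeasureTheory
open Pool.Agent.H90.MR

/-- Asymptotic normality of `M(x; H(X)) / √(H(X) / ζ(2))` over the `x` in `[X, 2X]` with `⌊x⌋` in `S`, for `X → ∞`. -/
def NormalLaw (S : Set ℕ) (H : ℝ → ℝ) : Prop :=
  ∀ t : ℝ, Tendsto (fun X : ℝ => lawR S (H X) X t) atTop
    (nhds (ProbabilityTheory.cdf (ProbabilityTheory.gaussianReal 0 1) t))

/-- Q1 (the Good-Churchhouse conjecture) for the centres `x` with `⌊x⌋` in `S`. -/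
def GoodChurchhouse (S : Set ℕ) : Prop :=
  ∀ ε : ℝ, 0 < ε → ε < 1 / 2 → ∀ H : ℝ → ℝ, (∀ᶠ X in atTop, X ^ ε < H X ∧ H X < X ^ (1 - ε)) → NormalLaw S H

/-- Q1, literally as in the frozen statement `S16911`. -/
def Q1 : Prop :=
    ∀ ε : ℝ, 0 < ε → ε < 1 / 2 →
    ∀ H : ℝ → ℝ,
      (∀ᶠ X in Filter.atTop, X ^ ε < H X ∧ H X < X ^ (1 - ε)) →
      ∀ t : ℝ,
        Filter.Tendsto
          (fun X : ℝ =>
            (MeasureTheory.volume
              {x : ℝ | x ∈ Set.Icc X (2 * X) ∧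
                (∑ n ∈ (Finset.range (⌊x + H X⌋₊ + 1)).filter
                    (fun n : ℕ => |(n : ℝ) - x| < H X / 2),
                    ((ArithmeticFunction.moebius n : ℤ) : ℝ))
                  / Real.sqrt (H X / (Real.pi ^ 2 / 6)) ≤ t}).toReal / X)
          Filter.atTop
          (nhds (ProbabilityTheory.cdf (ProbabilityTheory.gaussianReal 0 1) t))

/-- The members `⌊m / θ⌋` of a Beatty sequence. -/
def beatty (θ : ℝ) : Set ℕ := {n | ∃ m : ℕ, (n : ℤ) = ⌊(m : ℝ) / θ⌋}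

/-- The laws over the centres in `S` and over all centres merge, uniformly in the length. -/
def Merge (S : Set ℕ) : Prop :=
  ∀ ε δ η : ℝ, 0 < ε → 0 < δ → 0 < η → ∀ᶠ X : ℝ in atTop, ∀ H : ℝ, X ^ ε ≤ H → H ≤ X → ∀ t : ℝ,
    lawR Set.univ H X (t - δ) - η ≤ lawR S H X t ∧ lawR S H X t ≤ lawR Set.univ H X (t + δ) + η

lemma q1_iff : Q1 ↔ GoodChurchhouse Set.univ := by
  unfold Q1 GoodChurchhouse NormalLaw
  refine forall_congr' fun ε => forall_congr' fun _ => forall_congr' fun _ => forall_congr' fun H =>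
    forall_congr' fun _ => forall_congr' fun t => ?_
  apply tendsto_congr'
  filter_upwards [eventually_ge_atTop (0 : ℝ)] with X hX
  unfold lawR
  rw [lengthAll_univ hX]
  unfold lengthBelow mobReal
  congr 3
  ext x
  simp

/-- one function `H` -/
lemma normal_iff {S : Set ℕ} (hS : Merge S) {ε : ℝ} (hε : 0 < ε) {H : ℝ → ℝ}
    (hH : ∀ᶠ X : ℝ in atTop, X ^ ε ≤ H X ∧ H X ≤ X) : NormalLaw Set.univ H ↔ NormalLaw S H := by
  unfold NormalLaw
  refine levyr _ cdfr (fun X t => lawR Set.univ (H X) X t) (fun X t => lawR S (H X) X t) ?_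
  intro δ hδ η hη
  filter_upwards [hS ε δ η hε hδ hη, hH] with X h1 h2 t
  obtain ⟨h3, h4⟩ := h1 (H X) h2.1 h2.2 t
  exact ⟨h4, by linarith⟩

lemma conj_iff {S : Set ℕ} (hS : Merge S) : Q1 ↔ GoodChurchhouse S := by
  rw [q1_iff]
  unfold GoodChurchhouse
  refine forall_congr' fun ε => forall_congr' fun hε => forall_congr' fun _ => forall_congr' fun H =>
    forall_congr' fun hH => ?_
  refine normal_iff hS hε ?_
  filter_upwards [hH, eventually_ge_atTop 1] with X hX hX1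
  refine ⟨hX.1.le, hX.2.le.trans ?_⟩
  calc X ^ (1 - ε) ≤ X ^ (1 : ℝ) := Real.rpow_le_rpow_of_exponent_le hX1 (by linarith)
    _ = X := Real.rpow_one _

lemma merge_arc {α v : ℝ} (hα : MobA α) (hv0 : 0 < v) (hv1 : v ≤ 1) : Merge (arcSet α v) := by
  intro ε δ η hε hδ hη
  filter_upwards [closeR Pool.Agent.H59.MR.win Pool.Agent.H85.MR.vol hα hv0 hv1 hε δ hδ η hη] with X hX H h1 h2 t
  obtain ⟨h3, h4⟩ := hX H h1 h2 t
  exact ⟨by linarith, h3⟩

lemma mobs (hM : S_MOB) : ∀ᵐ α : ℝ, MobA α := hM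

/-- **Moebius sums in short windows with rotated centres.** -/
theorem result :
    (∀ᵐ α : ℝ, ∀ q : ℕ, 1 ≤ q → ∃ N₀ : ℕ, ∀ N : ℕ, N₀ ≤ N → ∀ h ≤ N, ∀ t v : ℝ, 0 ≤ v → v ≤ 1 →
      v * (below Set.univ N h (t - 16 * (N : ℝ) ^ (1 / (q : ℝ)))).card - (N : ℝ) ^ (1 - 1 / (4 * (q : ℝ))) ≤
        (below (arcSet α v) N h t).card ∧
      ((below (arcSet α v) N h t).card : ℝ) ≤
        v * (below Set.univ N h (t + 16 * (N : ℝ) ^ (1 / (q : ℝ)))).card + (N : ℝ) ^ (1 - 1 / (4 * (q : ℝ)))) ∧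
    (∀ᵐ α : ℝ, ∀ v : ℝ, 0 < v → v ≤ 1 → Merge (arcSet α v) ∧
      (∀ ε : ℝ, 0 < ε → ∀ H : ℝ → ℝ, (∀ᶠ X in atTop, X ^ ε ≤ H X ∧ H X ≤ X) →
        (NormalLaw Set.univ H ↔ NormalLaw (arcSet α v) H)) ∧
      (Q1 ↔ GoodChurchhouse (arcSet α v))) ∧
    (∀ᵐ θ : ℝ, 0 < θ → θ < 1 → Merge (beatty θ) ∧
      (∀ ε : ℝ, 0 < ε → ∀ H : ℝ → ℝ, (∀ᶠ X in atTop, X ^ ε ≤ H X ∧ H X ≤ X) →
        (NormalLaw Set.univ H ↔ NormalLaw (beatty θ) H)) ∧
      (Q1 ↔ GoodChurchhouse (beatty θ))) := by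
  have hMom := Pool.Agent.H59.MR.momg Pool.Agent.H85.MR.covg Pool.Agent.H85.MR.var Pool.Agent.H40.MR.gcd_sum
  have hE := Pool.Agent.H59.MR.expg hMom
  have hM : S_MOB := Pool.Agent.H85.MR.mob (metf Pool.Agent.H40.MR.dy Pool.Agent.H40.MR.sup hE Pool.Agent.H40.MR.tau_sum)
  refine ⟨hM, ?_, ?_⟩
  · filter_upwards [mobs hM] with α hα v hv0 hv1
    have h := merge_arc hα hv0 hv1
    exact ⟨h, fun ε hε H hH => normal_iff h hε hH, conj_iff h⟩
  · filter_upwards [ae_neg (mobs hM)] with θ hθ h0 h1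
    have hset : beatty θ = arcSet (-θ) θ := by
      ext n
      exact beatty_iff h0 h1 n
    have h := merge_arc hθ h0 h1.le
    rw [← hset] at h
    exact ⟨h, fun ε hε H hH => normal_iff h hε hH, conj_iff h⟩

end Pool.Agent.Results.MP_4f18df_nt.RotatedCentres
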