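import Pool.Agent.H19.TM.Phase

set_option autoImplicit false

/-!
# The truncated Moebius function in short intervals: all the limit laws in the normalisation of Good and Churchhouse

`mu y n` is the Moebius function truncated at `y` (library, `Pool.Agent.Y862.GM`): the product over the primes
`p ≤ y` of `0` if `p ^ 2` divides `n`, of `-1` if `p` divides `n` but `p ^ 2` does not, and of `1` otherwise, that is
the Moebius function of the `y`-smooth part of `n`.  Its mean value is of the order of `1 / (log y) ^ 2`.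

Let `y_n, b_n → ∞`, and let `(Z_n, Z_n + Y_n]` be intervals with `Y_n ≥ y_n ^ (A (log b_n + log log y_n))` eventually,
for every `A`.  For the sums of `mu y_n` over the windows of length `b_n` in these intervals, divided by
`√(b_n / ζ(2))` and NOT centred (the normalisation of Good and Churchhouse), and for every real `c ≥ 0`, the following
are equivalent: the Gaussian law with variance `1` and mean `drift c = √c e^(-2γ) π / √6`, at every point; the joint
Gaussian law for `k` adjacent windows for every `k`, uniformly in the point; the second moment tends to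
`1 + (drift c)^2`; and `b_n / (log y_n) ^ 4 → c`.  For `c = 0` these are the two conjectures of Good and Churchhouse, with
their exact range.  For `c = ∞`: almost all the sums are larger than `R √(b_n / ζ(2))`, for every `R`, if and only if the
second moment tends to infinity, if and only if `b_n / (log y_n) ^ 4 → ∞`.
-/

namespace Pool.Agent.Results.MP_4f18df_nt.UncentredExactRange

open Finset Filter Topology Pool.Agent.Y862.GM Pool.Agent.H19.TM

/-- the sum of `mu y` over the window `(x, x + b]`, divided by the square root of `b / ζ(2)` -/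
noncomputable def T (y b x : ℕ) : ℝ := (∑ n ∈ Ioc x (x + b), mu y n) / √(6 * b / Real.pi ^ 2)

open Classical in
/-- the proportion of the `x` in `(Z, Z + Y]` with `T y b (x + i b) ≤ t i` for all `i < k` -/
noncomputable def proportion {k : ℕ} (y b Z Y : ℕ) (t : Fin k → ℝ) : ℝ :=
  (((Ioc Z (Z + Y)).filter (fun x => ∀ i : Fin k, T y b (x + i * b) ≤ t i)).card : ℝ) / Y

/-- the mean value of `T y b x ^ 2` over the `x` in `(Z, Z + Y]` -/
noncomputable def secondMoment (y b Z Y : ℕ) : ℝ := (∑ x ∈ Ioc Z (Z + Y), T y b x ^ 2) / Y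

/-- the standard normal distribution function -/
noncomputable def Phi (t : ℝ) : ℝ := (ProbabilityTheory.gaussianReal 0 1).real (Set.Iic t)

/-- the Gaussian law with mean `m` and variance `1` for one window, at every point `t` -/
def GaussianLaw (y b Z Y : ℕ → ℕ) (m : ℝ) : Prop :=
  ∀ t : ℝ, Tendsto (fun n => proportion (y n) (b n) (Z n) (Y n) (fun _ : Fin 1 => t)) atTop (𝓝 (Phi (t - m)))

/-- the joint law of `k` adjacent windows is that of `k` independent normal variables with mean `m` and variance `1`,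
for every `k`, uniformly in the point `t ∈ ℝ ^ k` -/
def JointGaussianLaw (y b Z Y : ℕ → ℕ) (m : ℝ) : Prop :=
  ∀ (k : ℕ) (ε : ℝ), 0 < ε → ∀ᶠ n in atTop, ∀ t : Fin k → ℝ,
    |proportion (y n) (b n) (Z n) (Y n) t - ∏ i, Phi (t i - m)| ≤ ε

/-- the mean of the limit law if `b / (log y) ^ 4` tends to `c` -/
noncomputable def drift (c : ℝ) : ℝ := √c * Real.exp (-(2 * Real.eulerMascheroniConstant)) * (Real.pi / √6)

lemma proportion_eq {k : ℕ} (y b Z Y : ℕ) (hb : 1 ≤ b) (t : Fin k → ℝ) :
    proportion y b Z Y t = law y b Z Y 0 (fun i => t i * sd b) := by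
  classical
  obtain ⟨h0, _⟩ := sd_facts hb
  unfold proportion law
  congr 2
  congr 1
  apply filter_congr
  intro x _
  apply forall_congr'
  intro i
  have e : T y b (x + i * b) = (∑ n ∈ Ioc (x + i * b) (x + i * b + b), mu y n) / sd b := rfl
  rw [e, div_le_iff₀ h0, sub_zero]

lemma secondMoment_eq (y b Z Y : ℕ) (hb : 1 ≤ b) :
    secondMoment y b Z Y = msq y b Z Y 0 / (6 * b / Real.pi ^ 2) := by
  obtain ⟨h0, h2⟩ := sd_facts hb
  have e0 : secondMoment y b Z Y = (∑ x ∈ Ioc Z (Z + Y), T y b x ^ 2) / (Y : ℝ) := rfl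
  have e1 : msq y b Z Y 0 = (∑ x ∈ Ioc Z (Z + Y), (∑ n ∈ Ioc x (x + b), mu y n - 0) ^ 2) / (Y : ℝ) := rfl
  have e2 : ∀ x ∈ Ioc Z (Z + Y), T y b x ^ 2 =
      (∑ n ∈ Ioc x (x + b), mu y n - 0) ^ 2 / (6 * b / Real.pi ^ 2) := by
    intro x _
    have e : T y b x = (∑ n ∈ Ioc x (x + b), mu y n) / sd b := rfl
    rw [e, div_pow, h2, sub_zero]
  rw [e0, e1, sum_congr rfl e2, ← sum_div, div_right_comm]

lemma gaussianLaw_iff {y b Z Y : ℕ → ℕ} (hb : Tendsto b atTop atTop) (m : ℝ) :
    GaussianLaw y b Z Y m ↔ ∀ t : ℝ, Tendsto (fun n => law (y n) (b n) (Z n) (Y n) 0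
      (fun _ : Fin 1 => t * sd (b n))) atTop (𝓝 (Ph (t - m))) := by
  apply forall_congr'
  intro t
  apply tendsto_congr'
  filter_upwards [ev_ge hb 1] with n hn
  exact proportion_eq _ _ _ _ hn _

lemma jointGaussianLaw_iff {y b Z Y : ℕ → ℕ} (hb : Tendsto b atTop atTop) (m : ℝ) :
    JointGaussianLaw y b Z Y m ↔ ∀ (k : ℕ) (ε : ℝ), 0 < ε → ∀ᶠ n in atTop, ∀ t : Fin k → ℝ,
      |law (y n) (b n) (Z n) (Y n) 0 (fun i => t i * sd (b n)) - ∏ i, Ph (t i - m)| ≤ ε := by
  apply forall_congr'
  intro k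
  apply forall_congr'
  intro ε
  apply imp_congr_right
  intro _
  apply eventually_congr
  filter_upwards [ev_ge hb 1] with n hn
  apply forall_congr'
  intro t
  rw [proportion_eq _ _ _ _ hn]
  rfl

lemma secondMoment_iff {y b Z Y : ℕ → ℕ} (hb : Tendsto b atTop atTop) (F : Filter ℝ) :
    Tendsto (fun n => secondMoment (y n) (b n) (Z n) (Y n)) atTop F ↔
      Tendsto (fun n => msq (y n) (b n) (Z n) (Y n) 0 / (6 * b n / Real.pi ^ 2)) atTop F := by
  apply tendsto_congr'
  filter_upwards [ev_ge hb 1] with n hn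
  exact secondMoment_eq _ _ _ _ hn

lemma top_iff {y b Z Y : ℕ → ℕ} (hb : Tendsto b atTop atTop) :
    (∀ R : ℝ, Tendsto (fun n => proportion (y n) (b n) (Z n) (Y n) (fun _ : Fin 1 => R)) atTop (𝓝 0)) ↔
      ∀ R : ℝ, Tendsto (fun n => law (y n) (b n) (Z n) (Y n) 0 (fun _ : Fin 1 => R * sd (b n))) atTop (𝓝 0) := by
  apply forall_congr'
  intro t
  apply tendsto_congr'
  filter_upwards [ev_ge hb 1] with n hn
  exact proportion_eq _ _ _ _ hn _

theorem result (y b Z Y : ℕ → ℕ) (hy : Tendsto y atTop atTop) (hb : Tendsto b atTop atTop)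
    (hY : ∀ A : ℕ, ∀ᶠ n in atTop,
      (y n : ℝ) ^ (A * (Real.log (b n) + Real.log (Real.log (y n)))) ≤ Y n) :
    (∀ c : ℝ, 0 ≤ c → List.TFAE [
      GaussianLaw y b Z Y (drift c),
      JointGaussianLaw y b Z Y (drift c),
      Tendsto (fun n => secondMoment (y n) (b n) (Z n) (Y n)) atTop (𝓝 (1 + drift c ^ 2)),
      Tendsto (fun n => (b n : ℝ) / Real.log (y n) ^ 4) atTop (𝓝 c)]) ∧
    List.TFAE [
      ∀ R : ℝ, Tendsto (fun n => proportion (y n) (b n) (Z n) (Y n) (fun _ : Fin 1 => R)) atTop (𝓝 0),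
      Tendsto (fun n => secondMoment (y n) (b n) (Z n) (Y n)) atTop atTop,
      Tendsto (fun n => (b n : ℝ) / Real.log (y n) ^ 4) atTop atTop] := by
  refine ⟨fun c hc => ?_, ?_⟩
  · rw [gaussianLaw_iff hb, jointGaussianLaw_iff hb, secondMoment_iff hb]
    exact phase_fin hy hb hY c hc
  · rw [top_iff hb, secondMoment_iff hb]
    exact phase_top hy hb hY

end Pool.Agent.Results.MP_4f18df_nt.UncentredExactRange
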